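import Pool.Agent.helper73.SHL.Spec

/-!
# Row QUA: central division algebras of dimension four over the rational numbers
-/

set_option autoImplicit false

namespace Pool.Agent.SHL

open Matrix Module Pool.Agent.PR

/-- Every element of a central division algebra of dimension four satisfies a quadratic
equation. -/
theorem QUA_quad (D : Type) [DivisionRing D] [Algebra ℚ D] [FiniteDimensional ℚ D]
    (hc : Algebra.IsCentral ℚ D) (h4 : finrank ℚ D = 4) (x : D) :
    ∃ α β : ℚ, x * x = (α : D) * x + (β : D) := by
  by_cases hli : LinearIndependent ℚ ![1, x, x * x]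
  · exfalso
    let K : Subalgebra ℚ D := Algebra.adjoin ℚ {x}
    have hx : x ∈ K := Algebra.subset_adjoin rfl
    have hcomm : ∀ k ∈ K, ∀ l ∈ K, k * l = l * k := by
      intro k hk l hl
      have h1 : Commute k x := by
        have := Algebra.commute_of_mem_adjoin_of_forall_mem_commute (R := ℚ) (s := {x})
          (a := x) (b := k) hk (by
            intro b hb
            rw [Set.mem_singleton_iff] at hb
            rw [hb])
        exact this.symm
      have h2 := Algebra.commute_of_mem_adjoin_of_forall_mem_commute (R := ℚ) (s := {x})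
          (a := k) (b := l) hl (by
            intro b hb
            rw [Set.mem_singleton_iff] at hb
            rw [hb]
            exact h1)
      exact h2
    -- `K` is not everything
    obtain ⟨y, hy⟩ : ∃ y : D, y ∉ K := by
      by_contra hcon
      push Not at hcon
      have h1 : ∀ z : D, z ∈ (⊥ : Subalgebra ℚ D) := by
        intro z
        apply hc.out
        rw [Subalgebra.mem_center_iff]
        intro w
        exact hcomm w (hcon w) z (hcon z)
      have h2 : (⊥ : Subalgebra ℚ D) = ⊤ := by
        rw [eq_top_iff]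
        intro z _
        exact h1 z
      have h3 : finrank ℚ (⊥ : Subalgebra ℚ D) = 1 := Subalgebra.finrank_bot
      rw [h2, (Subalgebra.topEquiv : (⊤ : Subalgebra ℚ D) ≃ₐ[ℚ] D).toLinearEquiv.finrank_eq] at h3
      omega
    -- the map `(k, l) ↦ k + l y`
    let φ : (K × K) →ₗ[ℚ] D :=
      (K.val.toLinearMap ∘ₗ LinearMap.fst ℚ K K) +
        (LinearMap.mulRight ℚ y ∘ₗ K.val.toLinearMap ∘ₗ LinearMap.snd ℚ K K)
    have hφ : ∀ k l : K, φ (k, l) = (k : D) + (l : D) * y := fun k l => rfl
    have hinj : Function.Injective φ := by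
      rw [← LinearMap.ker_eq_bot, LinearMap.ker_eq_bot']
      rintro ⟨k, l⟩ hkl
      rw [hφ] at hkl
      by_cases hl : l = 0
      · subst hl
        have : (k : D) = 0 := by simpa using hkl
        have hk0 : k = 0 := Subtype.ext this
        rw [hk0]
        rfl
      · exfalso
        -- an inverse of `l` in `K`
        let ψ : K →ₗ[ℚ] K := LinearMap.mulRight ℚ l
        have hψ : Function.Injective ψ := by
          rw [← LinearMap.ker_eq_bot, LinearMap.ker_eq_bot']
          intro m hm
          have h1 : m * l = 0 := hm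
          have h2 : (m : D) * (l : D) = 0 := by
            have := congrArg (fun z : K => (z : D)) h1
            simpa using this
          rcases mul_eq_zero.mp h2 with h3 | h3
          · exact Subtype.ext h3
          · exact absurd (Subtype.ext h3) hl
        obtain ⟨m, hm⟩ := (LinearMap.injective_iff_surjective.mp hψ) 1
        have hm' : (m : D) * (l : D) = 1 := by
          have := congrArg (fun z : K => (z : D)) hm
          simpa [ψ] using this
        apply hy
        have : y = -((m : D) * (k : D)) := by
          have h1 : (m : D) * ((k : D) + (l : D) * y) = 0 := by rw [hkl, mul_zero]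
          rw [mul_add, ← mul_assoc, hm', one_mul] at h1
          exact (neg_eq_of_add_eq_zero_right h1).symm
        rw [this]
        exact K.neg_mem (K.mul_mem m.2 k.2)
    have h5 : finrank ℚ (K × K) ≤ finrank ℚ D := LinearMap.finrank_le_finrank_of_injective hinj
    rw [finrank_prod, h4] at h5
    -- three independent elements of `K`
    have h6 : 3 ≤ finrank ℚ K := by
      let w : Fin 3 → K := ![1, ⟨x, hx⟩, ⟨x * x, K.mul_mem hx hx⟩]
      have hw : LinearIndependent ℚ w := by
        apply LinearIndependent.of_comp K.val.toLinearMap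
        have : (K.val.toLinearMap : K → D) ∘ w = ![1, x, x * x] := by
          funext t
          fin_cases t <;> rfl
        rw [this]
        exact hli
      have := hw.fintype_card_le_finrank
      simpa using this
    omega
  · rw [Fintype.not_linearIndependent_iff] at hli
    obtain ⟨g, hg, i, hi⟩ := hli
    have hchar : CharZero D := charZero_of_injective_algebraMap (algebraMap ℚ D).injective
    have hg' : (g 0 : D) + g 1 * x + g 2 * (x * x) = 0 := by
      rw [Fin.sum_univ_three] at hg
      simpa [Algebra.smul_def, eq_ratCast] using hg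
    by_cases h2 : g 2 = 0
    · rw [h2, Rat.cast_zero, zero_mul, add_zero] at hg'
      have h1 : g 1 ≠ 0 := by
        intro h1
        rw [h1, Rat.cast_zero, zero_mul, add_zero] at hg'
        have h0 : g 0 = 0 := by exact_mod_cast hg'
        fin_cases i <;> simp_all
      have h1' : (g 1 : D) ≠ 0 := by exact_mod_cast h1
      have hx : x = ((-(g 0 / g 1) : ℚ) : D) := by
        have e : (g 1 : D) * x = -(g 0 : D) := eq_neg_of_add_eq_zero_right hg'
        have e2 : x = (g 1 : D)⁻¹ * ((g 1 : D) * x) := by
          rw [← mul_assoc, inv_mul_cancel₀ h1', one_mul]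
        rw [e2, e]
        push_cast
        rw [div_eq_mul_inv, mul_neg]
        congr 1
        exact (Rat.cast_comm (g 0) ((g 1 : D)⁻¹)).symm
      refine ⟨0, (g 0 / g 1) ^ 2, ?_⟩
      rw [Rat.cast_zero, zero_mul, zero_add, hx, ← Rat.cast_mul]
      congr 1
      ring
    · refine ⟨-(g 1 / g 2), -(g 0 / g 2), ?_⟩
      have h2' : (g 2 : D) ≠ 0 := by exact_mod_cast h2
      have e : (g 2 : D) * (x * x) = -((g 0 : D) + g 1 * x) := eq_neg_of_add_eq_zero_right hg'
      have e2 : x * x = (g 2 : D)⁻¹ * ((g 2 : D) * (x * x)) := by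
        rw [← mul_assoc, inv_mul_cancel₀ h2', one_mul]
      rw [e2, e, mul_neg, mul_add, ← mul_assoc, ← Rat.cast_inv, ← Rat.cast_mul, ← Rat.cast_mul,
        neg_add_rev, ← neg_mul, ← Rat.cast_neg, ← Rat.cast_neg]
      congr 2
      · congr 1
        ring
      · ring

/-- scaling a square root of a rational number to one of an integer -/
theorem QUA_scale (D : Type) [DivisionRing D] [CharZero D] (x : D) (r : ℚ)
    (h : x * x = (r : D)) : ((r.den : D) * x) * ((r.den : D) * x) =
      ((r.num * r.den : ℤ) : D) := by
  have e1 : ((r.den : D) * x) * ((r.den : D) * x) = (r.den : D) * r.den * (x * x) := by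
    rw [mul_assoc, ← mul_assoc x (r.den : D) x, ← Nat.cast_comm r.den x]
    simp only [mul_assoc]
  rw [e1, h]
  have e : (r.den : ℚ) * r.den * r = ((r.num * r.den : ℤ) : ℚ) := by
    have h1 : (r.den : ℚ) * r = r.num := by
      rw [mul_comm]
      exact Rat.mul_den_eq_num r
    push_cast
    rw [mul_assoc, h1]
    ring
  have e2 := congrArg (fun z : ℚ => (z : D)) e
  push_cast at e2
  push_cast
  exact e2

theorem QUA : QUA_stmt := by
  intro D _ _ _ hc h4
  have hchar : CharZero D := charZero_of_injective_algebraMap (algebraMap ℚ D).injective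
  have h2 : (2 : D) ≠ 0 := two_ne_zero
  -- an element which is not central
  obtain ⟨x, y, hxy⟩ : ∃ x y : D, x * y ≠ y * x := by
    by_contra hcon
    push Not at hcon
    have h1 : ∀ z : D, z ∈ (⊥ : Subalgebra ℚ D) := by
      intro z
      apply hc.out
      rw [Subalgebra.mem_center_iff]
      intro w
      exact hcon w z
    have h2 : (⊥ : Subalgebra ℚ D) = ⊤ := by
      rw [eq_top_iff]
      intro z _
      exact h1 z
    have h3 : finrank ℚ (⊥ : Subalgebra ℚ D) = 1 := Subalgebra.finrank_bot
    rw [h2, (Subalgebra.topEquiv : (⊤ : Subalgebra ℚ D) ≃ₐ[ℚ] D).toLinearEquiv.finrank_eq] at h3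
    omega
  -- complete the square
  obtain ⟨α, β, hq⟩ := QUA_quad D hc h4 x
  set i₀ : D := x - ((α / 2 : ℚ) : D) with hi₀
  have hi₀sq : i₀ * i₀ = ((β + α ^ 2 / 4 : ℚ) : D) := by
    have e1 : x * ((α / 2 : ℚ) : D) = ((α / 2 : ℚ) : D) * x := (Rat.cast_comm _ _).symm
    have e2 : (α : D) * x = ((α / 2 : ℚ) : D) * x + ((α / 2 : ℚ) : D) * x := by
      rw [← add_mul, ← Rat.cast_add, add_halves]
    have e3 : ((β + α ^ 2 / 4 : ℚ) : D) = (β : D) + ((α / 2 : ℚ) : D) * ((α / 2 : ℚ) : D) := by
      rw [← Rat.cast_mul, ← Rat.cast_add]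
      congr 1
      ring
    rw [hi₀, sub_mul, mul_sub, mul_sub, hq, e1, e2, e3]
    abel
  set r : ℚ := β + α ^ 2 / 4 with hr
  set i : D := (r.den : D) * i₀ with hi
  have hisq : i * i = ((r.num * r.den : ℤ) : D) := QUA_scale D i₀ r hi₀sq
  have hden : (r.den : D) ≠ 0 := by exact_mod_cast r.den_ne_zero
  have hiy : i * y ≠ y * i := by
    intro h
    rw [hi, mul_assoc, ← mul_assoc y, ← Nat.cast_comm r.den y, mul_assoc] at h
    have h1 : i₀ * y = y * i₀ := mul_left_cancel₀ hden h
    rw [hi₀, sub_mul, mul_sub, Rat.cast_comm] at h1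
    exact hxy (sub_left_injective h1)
  have hi0 : i ≠ 0 := by
    intro h
    apply hiy
    rw [h, zero_mul, mul_zero]
  -- the anticommuting element
  set j₀ : D := i * y - y * i with hj₀
  have hj0 : j₀ ≠ 0 := sub_ne_zero.mpr hiy
  set a : ℤ := r.num * r.den with ha
  have hacomm : ∀ z : D, (a : D) * z = z * (a : D) := fun z => Int.cast_comm a z
  have hanti : i * j₀ = -(j₀ * i) := by
    have e1 : i * j₀ = (a : D) * y - i * y * i := by
      rw [hj₀, mul_sub, ← mul_assoc, hisq, ← mul_assoc]
    have e2 : j₀ * i = i * y * i - (a : D) * y := by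
      rw [hj₀, sub_mul, mul_assoc y i i, hisq, hacomm]
    rw [e1, e2]
    abel
  obtain ⟨γ, δ, hq2⟩ := QUA_quad D hc h4 j₀
  have hγ : γ = 0 := by
    have c1 : i * (j₀ * j₀) = (j₀ * j₀) * i := by
      rw [← mul_assoc, hanti, neg_mul, mul_assoc, hanti, mul_neg, neg_neg, mul_assoc]
    rw [hq2, mul_add, add_mul, ← mul_assoc, ← Rat.cast_comm γ i, ← Rat.cast_comm δ i,
      mul_assoc, hanti, mul_assoc] at c1
    have c2 : (γ : D) * (-(j₀ * i)) = (γ : D) * (j₀ * i) := add_right_cancel c1
    have c3 : (2 : D) * ((γ : D) * (j₀ * i)) = 0 := by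
      rw [two_mul]
      nth_rewrite 1 [← c2]
      rw [mul_neg]
      abel
    rcases mul_eq_zero.mp c3 with h | h
    · exact absurd h h2
    · rcases mul_eq_zero.mp h with h | h
      · exact_mod_cast h
      · exfalso
        rcases mul_eq_zero.mp h with h | h
        · exact hj0 h
        · exact hi0 h
  rw [hγ, Rat.cast_zero, zero_mul, zero_add] at hq2
  set j : D := (δ.den : D) * j₀ with hj
  have hjsq : j * j = ((δ.num * δ.den : ℤ) : D) := QUA_scale D j₀ δ hq2
  have hdend : (δ.den : D) ≠ 0 := by exact_mod_cast δ.den_ne_zero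
  set b : ℤ := δ.num * δ.den with hb
  have hij : i * j = -(j * i) := by
    rw [hj, ← mul_assoc, ← Nat.cast_comm δ.den i, mul_assoc, hanti, mul_neg, mul_assoc]
  have hjne : j ≠ 0 := by
    intro h
    rcases mul_eq_zero.mp h with h | h
    · exact hdend h
    · exact hj0 h
  have hane : a ≠ 0 := by
    intro h
    rw [h, Int.cast_zero] at hisq
    exact hi0 (mul_self_eq_zero.mp hisq)
  have hbne : b ≠ 0 := by
    intro h
    rw [h, Int.cast_zero] at hjsq
    exact hjne (mul_self_eq_zero.mp hjsq)
  refine ⟨i, j, a, b, hane, hbne, hisq, hjsq, hij, ?_⟩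
  clear_value j b i a
  -- independence
  have hind : ∀ x y z : ℤ, (z : D) + x * i + y * j = 0 → x = 0 ∧ y = 0 ∧ z = 0 := by
    intro x y z h
    have hji : j * i = -(i * j) := by rw [hij, neg_neg]
    have hcx : ∀ (n : ℤ) (w : D), (n : D) * w = w * (n : D) := fun n w => Int.cast_comm n w
    have hy : y = 0 := by
      have e1 : i * ((z : D) + x * i + y * j) = 0 := by rw [h, mul_zero]
      have e2 : ((z : D) + x * i + y * j) * i = 0 := by rw [h, zero_mul]
      have e3 : (2 : D) * (y * (i * j)) = 0 := by
        calc (2 : D) * (y * (i * j)) =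
            i * ((z : D) + x * i + y * j) - ((z : D) + x * i + y * j) * i := by
              rw [mul_add, mul_add, add_mul, add_mul, ← mul_assoc i (x : D), ← hcx x i,
                ← mul_assoc i (y : D), ← hcx y i, ← hcx z i, mul_assoc (y : D) j i, hji]
              simp only [mul_assoc, mul_neg]
              rw [two_mul]
              abel
          _ = 0 := by rw [e1, e2, sub_zero]
      rcases mul_eq_zero.mp e3 with h | h
      · exact absurd h h2
      · rcases mul_eq_zero.mp h with h | h
        · exact_mod_cast h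
        · rcases mul_eq_zero.mp h with h | h
          · exact absurd h hi0
          · exact absurd h hjne
    rw [hy, Int.cast_zero, zero_mul, add_zero] at h
    have hx : x = 0 := by
      have e1 : j * ((z : D) + x * i) = 0 := by rw [h, mul_zero]
      have e2 : ((z : D) + x * i) * j = 0 := by rw [h, zero_mul]
      have e3 : (2 : D) * (x * (i * j)) = 0 := by
        calc (2 : D) * (x * (i * j)) = ((z : D) + x * i) * j - j * ((z : D) + x * i) := by
              rw [mul_add, add_mul, ← mul_assoc j (x : D), ← hcx x j, ← hcx z j,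
                mul_assoc (x : D) j i, hji, mul_assoc (x : D) i j]
              simp only [mul_neg]
              rw [two_mul]
              abel
          _ = 0 := by rw [e1, e2, sub_zero]
      rcases mul_eq_zero.mp e3 with h | h
      · exact absurd h h2
      · rcases mul_eq_zero.mp h with h | h
        · exact_mod_cast h
        · rcases mul_eq_zero.mp h with h | h
          · exact absurd h hi0
          · exact absurd h hjne
    rw [hx, Int.cast_zero, zero_mul, add_zero] at h
    exact ⟨hx, hy, by exact_mod_cast h⟩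
  intro x y z hz
  have hji : j * i = -(i * j) := by rw [hij, neg_neg]
  have hcx : ∀ (n : ℤ) (w : D), (n : D) * w = w * (n : D) := fun n w => Int.cast_comm n w
  have hprod : ((z : D) + x * i + y * j) * ((z : D) + (-x : ℤ) * i + (-y : ℤ) * j) = 0 := by
    have hz' : (z : D) * z = a * (x * x) + b * (y * y) := by
      have : (z * z : ℤ) = a * (x * x) + b * (y * y) := by nlinarith [hz]
      exact_mod_cast this
    have t1 : (x : D) * i * ((x : D) * i) = (x : D) * x * (a : D) := by
      rw [mul_assoc, ← mul_assoc i (x : D) i, ← hcx x i, mul_assoc (x : D) i i, hisq, mul_assoc]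
    have t2 : (y : D) * j * ((y : D) * j) = (y : D) * y * (b : D) := by
      rw [mul_assoc, ← mul_assoc j (y : D) j, ← hcx y j, mul_assoc (y : D) j j, hjsq, mul_assoc]
    have t3 : (x : D) * i * ((y : D) * j) = (x : D) * y * (i * j) := by
      rw [mul_assoc, ← mul_assoc i (y : D) j, ← hcx y i, mul_assoc (y : D) i j,
        mul_assoc (x : D) (y : D)]
    have t4 : (y : D) * j * ((x : D) * i) = -((x : D) * y * (i * j)) := by
      rw [mul_assoc, ← mul_assoc j (x : D) i, ← hcx x j, mul_assoc (x : D) j i, hji,
        mul_neg, mul_neg, ← mul_assoc (y : D), ← hcx y (x : D), ← hcx x (y : D)]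
    have t5 : (x : D) * i * (z : D) = (z : D) * (x * i) := (hcx z _).symm
    have t6 : (y : D) * j * (z : D) = (z : D) * (y * j) := (hcx z _).symm
    push_cast
    simp only [neg_mul, mul_neg, mul_add, add_mul]
    rw [t1, t2, t3, t4, t5, t6, hz', ← hcx a, ← hcx b]
    abel
  rcases mul_eq_zero.mp hprod with h | h
  · exact hind x y z h
  · obtain ⟨h1, h2, h3⟩ := hind (-x) (-y) z h
    exact ⟨neg_eq_zero.mp h1, neg_eq_zero.mp h2, h3⟩

end Pool.Agent.SHL
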